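import Mathlib
import Pool.Agent.Helper10.Sub.Defs

/-!
# Subspace theorem project: Liouville inequalities for linear forms with algebraic coefficients
-/

set_option autoImplicit false

namespace Pool.Agent.Helper47.Sub

open Pool.Agent.Helper10.Sub

variable {ι : Type} [Fintype ι] [DecidableEq ι]

omit [DecidableEq ι] in
/-- The integer matrices of multiplication by elements of a number field. -/
theorem exists_mats_aux {F : Type*} [Field F] [Algebra ℚ F] {K : Type*} [Field K] [Algebra ℚ K]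
    [FiniteDimensional ℚ K] (φ : K →ₐ[ℚ] F) (β : ι → K) :
    ∃ (D : ℕ) (N : ℤ) (B : ι → Matrix (Fin D) (Fin D) ℤ) (v : Fin D → F) (k0 : Fin D),
      N ≠ 0 ∧ v k0 ≠ 0 ∧
      (∀ (m : ι → ℤ) (k : Fin D), (N : F) * (∑ i, φ (β i) * m i) * v k =
        ∑ l, v l * (((∑ i, m i • B i) l k : ℤ) : F)) ∧
      (∀ m : ι → ℤ, ∑ i, φ (β i) * m i ≠ 0 → (∑ i, m i • B i).det ≠ 0) := by
  classical
  have : CharZero K := algebraRat.charZero K
  have : CharZero F := algebraRat.charZero F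
  let b := Module.finBasis ℚ K
  obtain ⟨N, hN⟩ := IsLocalization.exist_integer_multiples_of_finite (nonZeroDivisors ℤ)
    (fun q : ι × Fin (Module.finrank ℚ K) × Fin (Module.finrank ℚ K) =>
      (Algebra.leftMulMatrix b (β q.1) q.2.1 q.2.2 : ℚ))
  have hN0 : (N : ℤ) ≠ 0 := nonZeroDivisors.coe_ne_zero N
  choose z hz using hN
  let B : ι → Matrix (Fin (Module.finrank ℚ K)) (Fin (Module.finrank ℚ K)) ℤ :=
    fun i => Matrix.of fun l k => z (i, l, k)
  have hB : ∀ i, (B i).map (Int.cast : ℤ → ℚ) =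
      Algebra.leftMulMatrix b (((N : ℤ) : K) * β i) := by
    intro i
    ext l k
    have h1 := hz (i, l, k)
    rw [map_mul]
    have h2 : Algebra.leftMulMatrix b (((N : ℤ) : K)) =
        (((N : ℤ) : ℚ)) • (1 : Matrix _ _ ℚ) := by
      have : (((N : ℤ) : K)) = algebraMap ℚ K ((N : ℤ) : ℚ) := by simp
      rw [this, AlgHom.commutes, Algebra.algebraMap_eq_smul_one]
    rw [h2, smul_mul_assoc, one_mul, Matrix.smul_apply, Matrix.map_apply]
    simp only [B, Matrix.of_apply]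
    have h3 : (algebraMap ℤ ℚ) (z (i, l, k)) = ((z (i, l, k) : ℤ) : ℚ) := by simp
    rw [← h3, h1]
    simp
  have hsum : ∀ m : ι → ℤ, (∑ i, m i • B i).map (Int.cast : ℤ → ℚ) =
      Algebra.leftMulMatrix b (((N : ℤ) : K) * ∑ i, β i * m i) := by
    intro m
    have e1 : (∑ i, m i • B i).map (Int.cast : ℤ → ℚ) =
        ∑ i, (m i : ℚ) • (B i).map (Int.cast : ℤ → ℚ) := by
      ext l k
      rw [Matrix.map_apply, Matrix.sum_apply, Matrix.sum_apply, Int.cast_sum]
      refine Finset.sum_congr rfl fun i _ => ?_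
      rw [Matrix.smul_apply, Matrix.smul_apply, Matrix.map_apply, smul_eq_mul, smul_eq_mul,
        Int.cast_mul]
    rw [e1, Finset.mul_sum, map_sum]
    refine Finset.sum_congr rfl fun i _ => ?_
    rw [hB i]
    have : ((N : ℤ) : K) * (β i * (m i : K)) = (m i : ℚ) • (((N : ℤ) : K) * β i) := by
      rw [Algebra.smul_def]
      have : algebraMap ℚ K (m i : ℚ) = (m i : K) := by simp
      rw [this]; ring
    rw [this, map_smul]
  have hcoe : ∀ m : ι → ℤ, φ (∑ i, β i * (m i : K)) = ∑ i, φ (β i) * m i := by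
    intro m
    rw [map_sum]
    refine Finset.sum_congr rfl fun i _ => ?_
    rw [map_mul, map_intCast]
  have hpos : 0 < Module.finrank ℚ K := Module.finrank_pos
  refine ⟨Module.finrank ℚ K, (N : ℤ), B, fun k => φ (b k), ⟨0, hpos⟩, hN0, ?_, ?_, ?_⟩
  · exact (map_ne_zero φ).mpr (b.ne_zero ⟨0, hpos⟩)
  · intro m k
    have h2 : (((N : ℤ) : K) * ∑ i, β i * m i) * b k =
        ∑ l, (Algebra.leftMulMatrix b (((N : ℤ) : K) * ∑ i, β i * m i) l k) • b l := by
      conv_lhs => rw [← b.sum_repr ((((N : ℤ) : K) * ∑ i, β i * m i) * b k)]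
      refine Finset.sum_congr rfl fun l _ => ?_
      rw [Algebra.leftMulMatrix_eq_repr_mul]
    have h3 := congrArg φ h2
    rw [map_mul, map_mul, hcoe m, map_sum, map_intCast] at h3
    rw [h3]
    refine Finset.sum_congr rfl fun l _ => ?_
    rw [← hsum m, Matrix.map_apply, Algebra.smul_def, map_mul, AlgHom.commutes, mul_comm]
    congr 1
    rw [← map_intCast (algebraMap ℚ F)]
  · intro m hm hdet
    have h1 : (Algebra.leftMulMatrix b (((N : ℤ) : K) * ∑ i, β i * m i)).det = 0 := by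
      rw [← hsum m]
      have : ((∑ i, m i • B i).map (Int.cast : ℤ → ℚ)).det =
          (((∑ i, m i • B i).det : ℤ) : ℚ) := by
        exact (RingHom.map_det (Int.castRingHom ℚ) (∑ i, m i • B i)).symm
      rw [this, hdet]; simp
    have h2 : ((N : ℤ) : K) * ∑ i, β i * m i ≠ 0 := by
      apply mul_ne_zero
      · exact_mod_cast hN0
      · intro h
        apply hm
        rw [← hcoe m, h]; simp
    have h3 : IsUnit (Algebra.leftMulMatrix b (((N : ℤ) : K) * ∑ i, β i * m i)) :=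
      (IsUnit.mk0 _ h2).map _
    rw [Matrix.isUnit_iff_isUnit_det] at h3
    exact h3.ne_zero h1

omit [DecidableEq ι] in
/-- The integer matrices of multiplication by algebraic numbers. -/
theorem exists_mats {F : Type*} [Field F] [Algebra ℚ F] (β : ι → F)
    (hβ : ∀ i, IsAlgebraic ℚ (β i)) :
    ∃ (D : ℕ) (N : ℤ) (B : ι → Matrix (Fin D) (Fin D) ℤ) (v : Fin D → F) (k0 : Fin D),
      N ≠ 0 ∧ v k0 ≠ 0 ∧
      (∀ (m : ι → ℤ) (k : Fin D), (N : F) * (∑ i, β i * m i) * v k =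
        ∑ l, v l * (((∑ i, m i • B i) l k : ℤ) : F)) ∧
      (∀ m : ι → ℤ, ∑ i, β i * m i ≠ 0 → (∑ i, m i • B i).det ≠ 0) := by
  classical
  let K : IntermediateField ℚ F := IntermediateField.adjoin ℚ (Set.range β)
  have hfin : FiniteDimensional ℚ K := by
    apply IntermediateField.finiteDimensional_adjoin
    rintro x ⟨i, rfl⟩
    exact (hβ i).isIntegral
  have hmem : ∀ i, β i ∈ K := fun i => IntermediateField.subset_adjoin ℚ _ ⟨i, rfl⟩
  exact @exists_mats_aux ι _ F _ _ K _ K.algebra' hfin K.val (fun i => (⟨β i, hmem i⟩ : K))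

/-- The adjugate identity: `(det M) v_k = η ∑ v_l adj(M)_{l k}`. -/
theorem det_mul_eq {F : Type*} [Field F] {D : ℕ} (M : Matrix (Fin D) (Fin D) ℤ) (v : Fin D → F)
    (η : F) (h : ∀ k, η * v k = ∑ l, v l * ((M l k : ℤ) : F)) (k : Fin D) :
    ((M.det : ℤ) : F) * v k = η * ∑ l, v l * ((M.adjugate l k : ℤ) : F) := by
  classical
  have h1 : ∀ l j : Fin D, ∑ k, M l k * M.adjugate k j = if l = j then M.det else 0 := by
    intro l j
    have := congrFun (congrFun (Matrix.mul_adjugate M) l) j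
    rw [Matrix.mul_apply] at this
    rw [this, Matrix.smul_apply, Matrix.one_apply]
    split_ifs <;> simp
  rw [Finset.mul_sum]
  have h2 : ∀ l, η * (v l * ((M.adjugate l k : ℤ) : F)) =
      ∑ j, v j * (((M j l * M.adjugate l k : ℤ)) : F) := by
    intro l
    rw [← mul_assoc, h l, Finset.sum_mul]
    refine Finset.sum_congr rfl fun j _ => ?_
    push_cast; ring
  rw [Finset.sum_congr rfl fun l _ => h2 l, Finset.sum_comm]
  have h3 : ∀ j, ∑ l, v j * (((M j l * M.adjugate l k : ℤ)) : F) =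
      v j * (((if j = k then M.det else 0 : ℤ)) : F) := by
    intro j
    rw [← h1 j k, Int.cast_sum, Finset.mul_sum]
  rw [Finset.sum_congr rfl fun j _ => h3 j]
  simp [mul_comm]

omit [DecidableEq ι] in
lemma one_le_htv {m : ι → ℤ} (hm : m ≠ 0) : 1 ≤ htv m := by
  obtain ⟨i, hi⟩ := Function.ne_iff.mp hm
  have h1 : (m i).natAbs ≤ Finset.univ.sup fun i => (m i).natAbs :=
    Finset.le_sup (f := fun i => (m i).natAbs) (Finset.mem_univ i)
  have h2 : 1 ≤ (m i).natAbs := Nat.one_le_iff_ne_zero.mpr (Int.natAbs_ne_zero.mpr hi)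
  unfold htv
  exact_mod_cast h2.trans h1

omit [DecidableEq ι] in
lemma abs_le_htv (m : ι → ℤ) (i : ι) : |(m i : ℝ)| ≤ htv m := by
  have h1 : (m i).natAbs ≤ Finset.univ.sup fun i => (m i).natAbs :=
    Finset.le_sup (f := fun i => (m i).natAbs) (Finset.mem_univ i)
  unfold htv
  have h2 : |(m i : ℝ)| = ((m i).natAbs : ℝ) := by
    rw [Nat.cast_natAbs]; simp
  rw [h2]
  exact_mod_cast h1

omit [DecidableEq ι] in
/-- Bounds for the determinant and the adjugate. -/
lemma exists_bound {D : ℕ} (B : ι → Matrix (Fin D) (Fin D) ℤ) :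
    ∃ C0 : ℝ, 1 ≤ C0 ∧ ∀ m : ι → ℤ, m ≠ 0 →
      |(((∑ i, m i • B i).det : ℤ) : ℝ)| ≤ C0 * htv m ^ D ∧
      ∀ k l, |(((∑ i, m i • B i).adjugate k l : ℤ) : ℝ)| ≤ C0 * htv m ^ D := by
  classical
  set A0 : ℝ := 1 + ∑ i, ∑ k, ∑ l, |(B i k l : ℝ)| with hA0
  have hA1 : 1 ≤ A0 := by
    have : 0 ≤ ∑ i, ∑ k, ∑ l, |(B i k l : ℝ)| :=
      Finset.sum_nonneg fun i _ => Finset.sum_nonneg fun k _ => Finset.sum_nonneg fun l _ =>
        abs_nonneg _
    linarith
  have hent : ∀ m : ι → ℤ, m ≠ 0 → ∀ k l, |(((∑ i, m i • B i) k l : ℤ) : ℝ)| ≤ A0 * htv m := by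
    intro m hm k l
    have h1 := one_le_htv hm
    rw [Matrix.sum_apply]
    push_cast
    simp only [Matrix.smul_apply, smul_eq_mul]
    calc |∑ i, (((m i * B i k l : ℤ)) : ℝ)| ≤ ∑ i, |(((m i * B i k l : ℤ)) : ℝ)| :=
          Finset.abs_sum_le_sum_abs _ _
      _ ≤ ∑ i, htv m * |(B i k l : ℝ)| := by
          refine Finset.sum_le_sum fun i _ => ?_
          push_cast
          rw [abs_mul]
          exact mul_le_mul_of_nonneg_right (abs_le_htv m i) (abs_nonneg _)
      _ = htv m * ∑ i, |(B i k l : ℝ)| := by rw [Finset.mul_sum]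
      _ ≤ htv m * A0 := by
          refine mul_le_mul_of_nonneg_left ?_ (by linarith)
          rw [hA0]
          have : ∑ i, |(B i k l : ℝ)| ≤ ∑ i, ∑ k, ∑ l, |(B i k l : ℝ)| := by
            refine Finset.sum_le_sum fun i _ => ?_
            calc |(B i k l : ℝ)| ≤ ∑ l, |(B i k l : ℝ)| :=
                  Finset.single_le_sum (f := fun l => |(B i k l : ℝ)|)
                    (fun _ _ => abs_nonneg _) (Finset.mem_univ l)
              _ ≤ _ := Finset.single_le_sum (f := fun k => ∑ l, |(B i k l : ℝ)|)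
                    (fun _ _ => Finset.sum_nonneg fun _ _ => abs_nonneg _) (Finset.mem_univ k)
          linarith
      _ = A0 * htv m := mul_comm _ _
  have hdet : ∀ (M : Matrix (Fin D) (Fin D) ℤ) (x : ℝ), (∀ k l, |((M k l : ℤ) : ℝ)| ≤ x) →
      |((M.det : ℤ) : ℝ)| ≤ (D.factorial : ℝ) * x ^ D := by
    intro M x hx
    have h1 : ((M.det : ℤ) : ℝ) = (M.map (Int.cast : ℤ → ℝ)).det := by
      have := RingHom.map_det (Int.castRingHom ℝ) M
      simpa using this
    rw [h1]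
    have h2 := Matrix.det_le (A := M.map (Int.cast : ℤ → ℝ)) (abv := AbsoluteValue.abs) (x := x)
      (fun i j => by simpa using hx i j)
    simpa using h2
  refine ⟨(D.factorial : ℝ) * A0 ^ D, ?_, ?_⟩
  · have h1 : (1 : ℝ) ≤ (D.factorial : ℝ) := by exact_mod_cast Nat.factorial_pos D
    have h2 : (1 : ℝ) ≤ A0 ^ D := one_le_pow₀ hA1
    nlinarith
  · intro m hm
    have h1 := one_le_htv hm
    have h2 : (1 : ℝ) ≤ A0 * htv m := by nlinarith
    constructor
    · refine (hdet _ _ (hent m hm)).trans (le_of_eq ?_)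
      rw [mul_pow]; ring
    · intro k l
      rw [Matrix.adjugate_apply]
      refine (hdet _ (A0 * htv m) ?_).trans (le_of_eq ?_)
      · intro a c
        rw [Matrix.updateRow_apply]
        split_ifs
        · rw [Pi.single_apply]
          split_ifs
          · simpa using h2
          · simp; linarith
        · exact hent m hm a c
      · rw [mul_pow]; ring

/-- LIOU (real) -/
theorem liouR (β : ι → ℝ) (hβ : ∀ i, IsAlgebraic ℚ (β i)) :
    ∃ c C : ℝ, 0 < c ∧ 0 < C ∧ ∀ m : ι → ℤ, m ≠ 0 → ∑ i, β i * m i ≠ 0 →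
      c * htv m ^ (-C) ≤ |∑ i, β i * m i| := by
  classical
  obtain ⟨D, N, B, v, k0, hN, hv, hmul, hdet⟩ := exists_mats β hβ
  obtain ⟨C0, hC0, hbd⟩ := exists_bound B
  set V : ℝ := ∑ l, |v l| with hV
  have hVpos : 0 < V := lt_of_lt_of_le (abs_pos.mpr hv)
    (Finset.single_le_sum (f := fun l => |v l|) (fun _ _ => abs_nonneg _) (Finset.mem_univ k0))
  have hNpos : 0 < |(N : ℝ)| := abs_pos.mpr (by exact_mod_cast hN)
  have hvpos : 0 < |v k0| := abs_pos.mpr hv
  have hD : 0 < D := k0.pos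
  refine ⟨|v k0| / (|(N : ℝ)| * V * C0), D, by positivity, by exact_mod_cast hD, ?_⟩
  intro m hm hne
  have h1 := one_le_htv hm
  have hid := det_mul_eq _ v _ (hmul m) k0
  have hd1 : (1 : ℝ) ≤ |(((∑ i, m i • B i).det : ℤ) : ℝ)| := by
    have := Int.one_le_abs (hdet m hne)
    exact_mod_cast this
  have hs : |∑ l, v l * (((∑ i, m i • B i).adjugate l k0 : ℤ) : ℝ)| ≤ V * (C0 * htv m ^ D) := by
    refine (Finset.abs_sum_le_sum_abs _ _).trans ?_
    rw [hV, Finset.sum_mul]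
    refine Finset.sum_le_sum fun l _ => ?_
    rw [abs_mul]
    exact mul_le_mul_of_nonneg_left ((hbd m hm).2 l k0) (abs_nonneg _)
  have h2 : |v k0| ≤ |(N : ℝ)| * |∑ i, β i * m i| * (V * (C0 * htv m ^ D)) := by
    calc |v k0| = 1 * |v k0| := (one_mul _).symm
      _ ≤ |(((∑ i, m i • B i).det : ℤ) : ℝ)| * |v k0| :=
          mul_le_mul_of_nonneg_right hd1 (abs_nonneg _)
      _ = |(N : ℝ) * (∑ i, β i * m i) *
            ∑ l, v l * (((∑ i, m i • B i).adjugate l k0 : ℤ) : ℝ)| := by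
          rw [← abs_mul, hid]
      _ = |(N : ℝ)| * |∑ i, β i * m i| *
            |∑ l, v l * (((∑ i, m i • B i).adjugate l k0 : ℤ) : ℝ)| := by
          rw [abs_mul, abs_mul]
      _ ≤ _ := mul_le_mul_of_nonneg_left hs (by positivity)
  have hp : (0 : ℝ) < htv m ^ D := by positivity
  rw [Real.rpow_neg (by linarith), Real.rpow_natCast, div_mul_eq_mul_div, div_le_iff₀ (by positivity)]
  rw [mul_inv_le_iff₀ hp]
  calc |v k0| ≤ _ := h2
    _ = _ := by ring

/-- LIOU (p-adic) -/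
theorem liouP (q : ℕ) [Fact q.Prime] (β : ι → ℚ_[q]) (hβ : ∀ i, IsAlgebraic ℚ (β i)) :
    ∃ c C : ℝ, 0 < c ∧ 0 < C ∧ ∀ m : ι → ℤ, m ≠ 0 → ∑ i, β i * m i ≠ 0 →
      c * htv m ^ (-C) ≤ ‖∑ i, β i * m i‖ := by
  classical
  obtain ⟨D, N, B, v, k0, hN, hv, hmul, hdet⟩ := exists_mats β hβ
  obtain ⟨C0, hC0, hbd⟩ := exists_bound B
  set V : ℝ := ∑ l, ‖v l‖ with hV
  have hVpos : 0 < V := lt_of_lt_of_le (norm_pos_iff.mpr hv)
    (Finset.single_le_sum (f := fun l => ‖v l‖) (fun _ _ => norm_nonneg _) (Finset.mem_univ k0))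
  have hNpos : 0 < ‖(N : ℚ_[q])‖ := norm_pos_iff.mpr (by exact_mod_cast hN)
  have hvpos : 0 < ‖v k0‖ := norm_pos_iff.mpr hv
  have hD : 0 < D := k0.pos
  refine ⟨‖v k0‖ / (‖(N : ℚ_[q])‖ * V * C0), D, by positivity, by exact_mod_cast hD, ?_⟩
  intro m hm hne
  have h1 := one_le_htv hm
  have hid := det_mul_eq _ v _ (hmul m) k0
  have hp : (0 : ℝ) < htv m ^ D := by positivity
  set d : ℤ := (∑ i, m i • B i).det with hd
  have hd0 : d ≠ 0 := hdet m hne
  have hd1 : (1 : ℝ) ≤ |(d : ℝ)| * ‖(d : ℚ_[q])‖ := by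
    have hz : ‖(d : ℚ_[q])‖ = (q : ℝ) ^ (-(padicValInt q d : ℤ)) := by
      have h := padicNorm.eq_zpow_of_nonzero (p := q) (q := (d : ℚ)) (by exact_mod_cast hd0)
      have h' : ‖(d : ℚ_[q])‖ = ((padicNorm q (d : ℚ) : ℚ) : ℝ) := by
        rw [← Padic.eq_padicNorm]
        simp
      rw [h', h]
      push_cast
      simp [padicValRat.of_int]
    rw [hz, zpow_neg, zpow_natCast, ← div_eq_mul_inv, le_div_iff₀, one_mul]
    · have hdvd : (q : ℤ) ^ (padicValInt q d) ∣ d := by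
        exact padicValInt_dvd d
      have hle := Int.le_of_dvd (abs_pos.mpr hd0) ((dvd_abs _ _).mpr hdvd)
      exact_mod_cast hle
    · have : 0 < q := (Fact.out : q.Prime).pos
      positivity
  have hs : ‖∑ l, v l * (((∑ i, m i • B i).adjugate l k0 : ℤ) : ℚ_[q])‖ ≤ V := by
    refine (norm_sum_le _ _).trans ?_
    rw [hV]
    refine Finset.sum_le_sum fun l _ => ?_
    rw [norm_mul]
    exact mul_le_of_le_one_right (norm_nonneg _) (Padic.norm_int_le_one _)
  have h2 : ‖v k0‖ ≤ (C0 * htv m ^ D) * (‖(N : ℚ_[q])‖ * ‖∑ i, β i * m i‖ * V) := by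
    calc ‖v k0‖ = 1 * ‖v k0‖ := (one_mul _).symm
      _ ≤ (|(d : ℝ)| * ‖(d : ℚ_[q])‖) * ‖v k0‖ :=
          mul_le_mul_of_nonneg_right hd1 (norm_nonneg _)
      _ = |(d : ℝ)| * ‖(N : ℚ_[q]) * (∑ i, β i * m i) *
            ∑ l, v l * (((∑ i, m i • B i).adjugate l k0 : ℤ) : ℚ_[q])‖ := by
          rw [← hid, norm_mul, mul_assoc]
      _ = |(d : ℝ)| * (‖(N : ℚ_[q])‖ * ‖∑ i, β i * m i‖ *
            ‖∑ l, v l * (((∑ i, m i • B i).adjugate l k0 : ℤ) : ℚ_[q])‖) := by
          rw [norm_mul, norm_mul]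
      _ ≤ (C0 * htv m ^ D) * (‖(N : ℚ_[q])‖ * ‖∑ i, β i * m i‖ * V) := by
          refine mul_le_mul (hbd m hm).1 ?_ (by positivity) (by positivity)
          exact mul_le_mul_of_nonneg_left hs (by positivity)
  rw [Real.rpow_neg (by linarith), Real.rpow_natCast, div_mul_eq_mul_div, div_le_iff₀ (by positivity)]
  rw [mul_inv_le_iff₀ hp]
  calc ‖v k0‖ ≤ _ := h2
    _ = _ := by ring

end Pool.Agent.Helper47.Sub
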