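import Pool.Agent.Helper10.RC.Basic

/-!
# RC-DESC: descent of finitely many polynomials to a number field; irreducibility
-/

set_option autoImplicit false

namespace Pool.Agent.Helper47.RC

open Pool.Agent.Helper10.RC MvPolynomial NumberField

theorem descent {K : Type} [Field K] [NumberField K] {n : ℕ} (Fs : Finset (AlgebraicClosure K))
    (Gs : Finset (Pl (AlgebraicClosure K) n)) :
    ∃ (L : Type) (_ : Field L) (_ : NumberField L) (_ : Algebra K L)
      (φ : L →ₐ[K] AlgebraicClosure K), (∀ x ∈ Fs, ∃ z : L, φ z = x) ∧
      ∀ G ∈ Gs, ∃ H : Pl L n, H.map (MvPolynomial.map (φ : L →+* AlgebraicClosure K)) = G := by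
  classical
  let S : Finset (AlgebraicClosure K) :=
    Fs ∪ Gs.biUnion fun G => G.support.biUnion fun k => (G.coeff k).support.image
      fun α => coeff α (G.coeff k)
  let L : IntermediateField K (AlgebraicClosure K) := IntermediateField.adjoin K (S : Set _)
  have hfd : FiniteDimensional K L :=
    IntermediateField.finiteDimensional_adjoin fun x _ =>
      (Algebra.IsAlgebraic.isAlgebraic (R := K) x).isIntegral
  have hchar : CharZero L := charZero_of_injective_algebraMap (algebraMap K L).injective
  have hfdQ : FiniteDimensional ℚ L := Module.Finite.trans K L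
  have hNF : NumberField L := { to_charZero := hchar, to_finiteDimensional := hfdQ }
  refine ⟨L, inferInstance, hNF, inferInstance, L.val, ?_, ?_⟩
  · intro x hx
    exact ⟨⟨x, IntermediateField.subset_adjoin K _
      (Finset.mem_coe.2 (Finset.mem_union_left _ hx))⟩, rfl⟩
  · intro G hG
    have h1 : G ∈ Polynomial.lifts
        (MvPolynomial.map (σ := Fin n) (L.val : L →+* AlgebraicClosure K)) := by
      rw [Polynomial.lifts_iff_coeff_lifts]
      intro k
      have h2 : G.coeff k ∈ Set.range (MvPolynomial.map (σ := Fin n)
          (L.val : L →+* AlgebraicClosure K)) := by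
        rw [mem_range_map_iff_coeffs_subset]
        intro c hc
        rw [Finset.mem_coe, mem_coeffs_iff] at hc
        obtain ⟨α, hα, rfl⟩ := hc
        have hk : k ∈ G.support := by
          rw [Polynomial.mem_support_iff]
          rintro h0
          rw [h0] at hα
          simp at hα
        have h3 : coeff α (G.coeff k) ∈ S := by
          refine Finset.mem_union_right _ (Finset.mem_biUnion.2 ⟨G, hG, ?_⟩)
          exact Finset.mem_biUnion.2 ⟨k, hk, Finset.mem_image.2 ⟨α, hα, rfl⟩⟩
        exact ⟨⟨_, IntermediateField.subset_adjoin K _ (Finset.mem_coe.2 h3)⟩, rfl⟩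
      exact h2
    exact (Polynomial.mem_lifts _).1 h1

theorem kum_monic {K : Type} [Field K] {n : ℕ} (P : Pl K n) (hP : P.Monic) (N : ℕ) (L : Type)
    [Field L] [Algebra K L] : (kum L P N).Monic := hP.map _

theorem kum_map {K : Type} [Field K] {n : ℕ} (P : Pl K n) (N : ℕ) (L M : Type) [Field L]
    [Algebra K L] [Field M] [Algebra K M] (φ : L →ₐ[K] M) :
    (kum L P N).map (MvPolynomial.map (φ : L →+* M)) = kum M P N := by
  unfold kum
  rw [Polynomial.map_map]
  congr 1
  apply RingHom.ext
  intro f
  simp only [RingHom.comp_apply]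
  have h1 : (φ : L →+* M).comp (algebraMap K L) = algebraMap K M := φ.comp_algebraMap
  change MvPolynomial.map (φ : L →+* M) (expand N (MvPolynomial.map (algebraMap K L) f)) =
    expand N (MvPolynomial.map (algebraMap K M) f)
  rw [map_expand, MvPolynomial.map_map, h1]

theorem irr_descent {K : Type} [Field K] [NumberField K] {n : ℕ} (P : Pl K n) (hP : P.Monic)
    (N : ℕ) (hN : 1 ≤ N) (hirr : Irreducible (kum (AlgebraicClosure K) P N)) (L : Type) [Field L]
    [Algebra K L] (φ : L →ₐ[K] AlgebraicClosure K) : Irreducible (kum L P N) := by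
  have hinj : Function.Injective (MvPolynomial.map (σ := Fin n) (φ : L →+* AlgebraicClosure K)) :=
    MvPolynomial.map_injective _ φ.injective
  have hmon : (kum L P N).Monic := kum_monic P hP N L
  have hmap := kum_map P N L (AlgebraicClosure K) φ
  rw [← hmap] at hirr
  constructor
  · intro hu
    exact hirr.not_isUnit (hu.map (Polynomial.mapRingHom _))
  · intro A B hAB
    have h1 : (kum L P N).map (MvPolynomial.map (φ : L →+* AlgebraicClosure K)) =
        A.map (MvPolynomial.map (φ : L →+* AlgebraicClosure K)) *
        B.map (MvPolynomial.map (φ : L →+* AlgebraicClosure K)) := by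
      rw [hAB, Polynomial.map_mul]
    have hlc : A.leadingCoeff * B.leadingCoeff = 1 := by
      rw [← Polynomial.leadingCoeff_mul, ← hAB]
      exact hmon
    have key : ∀ A' B' : Pl L n, A'.leadingCoeff * B'.leadingCoeff = 1 →
        IsUnit (A'.map (MvPolynomial.map (φ : L →+* AlgebraicClosure K))) → IsUnit A' := by
      intro A' B' h2 h3
      have h4 : A'.natDegree = 0 := by
        have h5 := Polynomial.natDegree_eq_zero_of_isUnit h3
        rwa [Polynomial.natDegree_map_eq_of_injective hinj] at h5
      rw [Polynomial.eq_C_of_natDegree_eq_zero h4, Polynomial.isUnit_C]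
      have h6 : A'.leadingCoeff = A'.coeff 0 := by
        rw [Polynomial.leadingCoeff, h4]
      rw [← h6]
      exact IsUnit.of_mul_eq_one _ h2
    rcases hirr.isUnit_or_isUnit h1 with h2 | h2
    · exact Or.inl (key A B hlc h2)
    · exact Or.inr (key B A (by rw [mul_comm]; exact hlc) h2)

end Pool.Agent.Helper47.RC
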